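import Mathlib

/-!
The equation `y ^ 3 + x * y = x ^ 4 + 4` has no solution in integers (MP_e62c7c_nt, Q1).

A solution has `x = 2 z`, `y = 2 w` with `z`, `w` odd and `2 w ^ 3 + z w = 4 z ^ 4 + 1`.  Put
`v = 2 z ^ 2 + z + 1` and `h = 2 (v ^ 2 + v w + w ^ 2) + z`.  Then
`4 (v - w) h = X ^ 2 + 3 Y ^ 2` with `X = 8 z ^ 3 + 6 z ^ 2 + 5 z + 1`, `Y = (2 z + 1) (z + 1)`,
so every prime divisor of the odd positive number `h` is `1` modulo `3`, while `h` is `2`
modulo `3`.
-/

namespace Pool.Agent.Results.MP_e62c7c_nt.NoSolutions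

/-- If `X ^ 2 + 3 Y ^ 2 = 0` modulo a prime `p`, `p ≠ 2, 3`, and `Y ≠ 0`, then `p = 1 mod 3`. -/
theorem prime_mod_three (p : ℕ) [Fact p.Prime] (h2 : (2 : ZMod p) ≠ 0) (h3 : (3 : ZMod p) ≠ 0)
    (X Y : ZMod p) (hY : Y ≠ 0) (h : X ^ 2 + 3 * Y ^ 2 = 0) : p % 3 = 1 := by
  set a : ZMod p := X / Y with ha
  have ha2 : a ^ 2 = -3 := by
    rw [ha, div_pow]
    field_simp
    linear_combination h
  set ω : ZMod p := (a - 1) / 2 with hω
  have hω' : 2 * ω = a - 1 := by
    rw [hω]
    field_simp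
  have h4 : (4 : ZMod p) ≠ 0 := by
    have : (4 : ZMod p) = 2 * 2 := by norm_num
    rw [this]
    exact mul_ne_zero h2 h2
  have hq : ω ^ 2 + ω + 1 = 0 := by
    have : 4 * (ω ^ 2 + ω + 1) = 0 := by
      linear_combination (2 * ω + a + 1) * hω' + ha2
    exact (mul_eq_zero.1 this).resolve_left h4
  have hcube : ω ^ 3 = 1 := by linear_combination (ω - 1) * hq
  have hne : ω ≠ 1 := by
    intro h1
    rw [h1] at hq
    apply h3
    linear_combination hq
  have hne0 : ω ≠ 0 := by
    intro h0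
    rw [h0] at hcube
    norm_num at hcube
  have hord : orderOf ω = 3 := orderOf_eq_prime hcube hne
  have hdvd : 3 ∣ p - 1 := by
    rw [← hord]
    exact ZMod.orderOf_dvd_card_sub_one hne0
  have hp : 1 ≤ p := (Fact.out : p.Prime).one_le
  omega

/-- A number all of whose prime factors are `1` modulo `3` is `1` modulo `3`. -/
theorem mod_three_of_primes : ∀ n : ℕ, n ≠ 0 → (∀ p : ℕ, p.Prime → p ∣ n → p % 3 = 1) →
    n % 3 = 1 := by
  intro n
  induction n using Nat.strong_induction_on with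
  | _ n ih =>
    intro hn hp
    by_cases h1 : n = 1
    · rw [h1]
    · have hprime := Nat.minFac_prime h1
      obtain ⟨m, hm⟩ := Nat.minFac_dvd n
      have hm0 : m ≠ 0 := by
        rintro rfl
        exact hn (by rw [hm, mul_zero])
      have hlt : m < n := by
        have h2 := hprime.two_le
        have hmpos : 0 < m := Nat.pos_of_ne_zero hm0
        calc m < 2 * m := by omega
          _ ≤ n.minFac * m := Nat.mul_le_mul_right m h2
          _ = n := hm.symm
      have hm1 := ih m hlt hm0 (fun p hpp hpm => hp p hpp (by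
        rw [hm]
        exact Dvd.dvd.mul_left hpm _))
      have hq1 := hp _ hprime (Nat.minFac_dvd n)
      rw [hm, Nat.mul_mod, hq1, hm1]

/-- **The equation has no integer solution.** -/
theorem result : ¬ ∃ x y : ℤ, y ^ 3 + x * y = x ^ 4 + 4 := by
  rintro ⟨x, y, h⟩
  -- parity
  have hx : Even x := by
    by_contra hx
    rw [Int.not_even_iff_odd] at hx
    have hodd : Odd (x ^ 4 + 4) := (hx.pow).add_even (by decide)
    rw [← h] at hodd
    rcases Int.even_or_odd y with hy | hy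
    · have : Even (y ^ 3 + x * y) := (hy.pow_of_ne_zero (by norm_num)).add (hy.mul_left x)
      exact (Int.not_even_iff_odd.2 hodd) this
    · have : Even (y ^ 3 + x * y) := (hy.pow).add_odd (hx.mul hy)
      exact (Int.not_even_iff_odd.2 hodd) this
  have hy : Even y := by
    by_contra hy
    rw [Int.not_even_iff_odd] at hy
    have heven : Even (x ^ 4 + 4) := (hx.pow_of_ne_zero (by norm_num)).add (by decide)
    rw [← h] at heven
    have : Odd (y ^ 3 + x * y) := (hy.pow).add_even (hx.mul_right y)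
    exact (Int.not_even_iff_odd.2 this) heven
  obtain ⟨z, hz⟩ := hx
  obtain ⟨w, hw⟩ := hy
  have hzw : 2 * w ^ 3 + z * w = 4 * z ^ 4 + 1 := by
    have : 4 * (2 * w ^ 3 + z * w) = 4 * (4 * z ^ 4 + 1) := by
      rw [hz, hw] at h
      linear_combination h
    linarith
  -- `z` is odd
  have hzodd : Odd z := by
    by_contra hzo
    rw [Int.not_odd_iff_even] at hzo
    have h1 : Even (2 * w ^ 3 + z * w) := (even_two_mul _).add (hzo.mul_right w)
    rw [hzw] at h1
    have h2 : Odd (4 * z ^ 4 + 1) := by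
      refine Even.add_one ?_
      exact Even.mul_right (by decide) _
    exact (Int.not_even_iff_odd.2 h2) h1
  set v : ℤ := 2 * z ^ 2 + z + 1 with hv
  set H : ℤ := 2 * (v ^ 2 + v * w + w ^ 2) + z with hH
  have hprod : 4 * ((v - w) * H) =
      (8 * z ^ 3 + 6 * z ^ 2 + 5 * z + 1) ^ 2 + 3 * ((2 * z + 1) * (z + 1)) ^ 2 := by
    rw [hH, hv]
    linear_combination (-4) * hzw
  have hHpos : 0 < H := by
    have hv1 : 1 ≤ v := by
      rw [hv]
      nlinarith [sq_nonneg (4 * z + 1)]
    have hvz : 0 < v + z := by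
      rw [hv]
      nlinarith [sq_nonneg (z + 1), sq_nonneg z]
    have h1 : v ≤ v ^ 2 := by nlinarith
    rw [hH]
    nlinarith [sq_nonneg (v + w), sq_nonneg w]
  have hHodd : Odd H := by
    rw [hH]
    exact (even_two_mul _).add_odd hzodd
  have hH3 : H % 3 = 2 := by
    have hz3 : z % 3 = 0 ∨ z % 3 = 1 ∨ z % 3 = 2 := by omega
    have hw3 : w % 3 = 0 ∨ w % 3 = 1 ∨ w % 3 = 2 := by omega
    have e := congrArg (· % 3) hzw
    rw [hH, hv]
    rcases hz3 with hz3 | hz3 | hz3 <;> rcases hw3 with hw3 | hw3 | hw3 <;>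
      simp [pow_succ, Int.add_emod, Int.mul_emod, hz3, hw3] at e ⊢
  -- all prime factors of `H` are `1` modulo `3`
  have hprimes : ∀ p : ℕ, p.Prime → p ∣ H.natAbs → p % 3 = 1 := by
    intro p hp hpH
    have : Fact p.Prime := ⟨hp⟩
    have hpH' : (p : ℤ) ∣ H := Int.natCast_dvd.2 hpH
    have hp2 : p ≠ 2 := by
      rintro rfl
      rw [Int.odd_iff] at hHodd
      have : (2 : ℤ) ∣ H := hpH'
      omega
    have hp3 : p ≠ 3 := by
      rintro rfl
      have : (3 : ℤ) ∣ H := hpH'
      omega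
    have h2 : (2 : ZMod p) ≠ 0 := by
      intro h0
      have : p ∣ 2 := (ZMod.natCast_eq_zero_iff 2 p).1 (by exact_mod_cast h0)
      exact hp2 ((Nat.prime_dvd_prime_iff_eq hp Nat.prime_two).1 this)
    have h3 : (3 : ZMod p) ≠ 0 := by
      intro h0
      have : p ∣ 3 := (ZMod.natCast_eq_zero_iff 3 p).1 (by exact_mod_cast h0)
      exact hp3 ((Nat.prime_dvd_prime_iff_eq hp Nat.prime_three).1 this)
    have hH0 : (H : ZMod p) = 0 := (ZMod.intCast_zmod_eq_zero_iff_dvd H p).2 hpH'
    have hsum : (8 * (z : ZMod p) ^ 3 + 6 * (z : ZMod p) ^ 2 + 5 * (z : ZMod p) + 1) ^ 2 +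
        3 * ((2 * (z : ZMod p) + 1) * ((z : ZMod p) + 1)) ^ 2 = 0 := by
      have e := congrArg (Int.cast : ℤ → ZMod p) hprod
      push_cast at e
      rw [← e, hH0]
      ring
    refine prime_mod_three p h2 h3 _ _ ?_ hsum
    intro hY
    rw [hY] at hsum
    have hX : (8 * (z : ZMod p) ^ 3 + 6 * (z : ZMod p) ^ 2 + 5 * (z : ZMod p) + 1) = 0 := by
      have : (8 * (z : ZMod p) ^ 3 + 6 * (z : ZMod p) ^ 2 + 5 * (z : ZMod p) + 1) ^ 2 = 0 := by
        linear_combination hsum
      exact pow_eq_zero_iff (two_ne_zero) |>.1 this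
    rcases mul_eq_zero.1 hY with hY | hY
    · -- `2 z = -1`
      apply h2
      linear_combination (8 * (z : ZMod p) ^ 2 + 2 * (z : ZMod p) + 4) * hY - 2 * hX
    · -- `z = -1`
      have h6 : (2 : ZMod p) * 3 = 0 := by
        linear_combination (8 * (z : ZMod p) ^ 2 - 2 * (z : ZMod p) + 7) * hY - hX
      rcases mul_eq_zero.1 h6 with h | h
      · exact h2 h
      · exact h3 h
  have hfin := mod_three_of_primes H.natAbs (by omega) hprimes
  omega

end Pool.Agent.Results.MP_e62c7c_nt.NoSolutions
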